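import Mathlib
import Pool.Agent.Q29.EP.RowsCT
import Pool.Agent.TH170.GS.Main
import Pool.Agent.TH170.GS.Rel

/-!
# From types outside of `degTypes` to one half of all slope types
-/

set_option autoImplicit false
set_option linter.unusedSectionVars false

namespace Pool.Agent.Run7.h879.HA

open NumberField Module Pool.Agent.H204R3.CM Pool.Agent.H977R3.CM Pool.Agent.TH170
  Pool.Agent.TH170.CM Pool.Agent.TH170.MF Pool.Agent.TH170.FW Pool.Agent.Y1.KN Pool.Agent.Q29.EP
  Pool.Agent.Q29.DP Pool.Agent.W495.TA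

/-- A property of slope types outside of `degTypes` holds without relations. -/
theorem of_notMem {Q : TypeProperty}
    (h : ∀ (p : ℕ) [hp : Fact p.Prime] (ν : PadicAlgCl p ≃+* ℂ) (I : Type) [hI : Fintype I]
      (K : I → Type) [hK : ∀ i, Field (K i)] [hN : ∀ i, NumberField (K i)]
      [hC : ∀ i, IsCMField (K i)] (M : ∀ i, (K i →+* ℂ) → ℤ) (Φ : ∀ i, Set (K i →+* ℂ)),
      PairwiseIndep K → (∀ i φ, M i (ComplexEmbedding.conjugate φ) = M i φ) →
      (∀ i, IsCMType (Φ i)) → (∀ i, Φ i ∉ degTypes (M i)) → Q p hp ν I hI K hK hN hC M Φ) :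
    WithoutRelations Q := by
  intro p _ ν I _ K _ _ _ M Φ hind hM hΦ hno
  exact h p ν I K M Φ hind hM hΦ fun i => notMem_degTypes_of_noRelations (hno i)

/-- A property of slope types which follows from elementary relations holds without relations. -/
theorem of_elementary {Q : TypeProperty}
    (h : ∀ (p : ℕ) [hp : Fact p.Prime] (ν : PadicAlgCl p ≃+* ℂ) (I : Type) [hI : Fintype I]
      (K : I → Type) [hK : ∀ i, Field (K i)] [hN : ∀ i, NumberField (K i)]
      [hC : ∀ i, IsCMField (K i)] (M : ∀ i, (K i →+* ℂ) → ℤ) (Φ : ∀ i, Set (K i →+* ℂ)),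
      (∀ Y : RedAV p ν, GS.OfTypes K M Φ Y → ∃ Z : RedAV p ν,
        TH117.BL.HasElementaryRelations Z ∧ TH117.BL.IsPowersTimesSupersingular Z Y) →
      Q p hp ν I hI K hK hN hC M Φ) :
    WithoutRelations Q :=
  of_notMem fun p _ ν I _ K _ _ _ M Φ hind hM hΦ hnd =>
    h p ν I K M Φ fun Y hY => ⟨Y, GS.elementary_of_types hind hM hΦ hnd hY, fun k => Or.inr
      ⟨k, RingHom.id _, 1, 1, one_pos, one_pos, rfl, rfl⟩⟩

/-- One half of all slope types, the weights one, one of two slope types, abelian fields. -/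
theorem four {Q : TypeProperty} (h : WithoutRelations Q) :
    HalfOfAll Q ∧ MostWithWeightsOne Q ∧ OneOfTwo Q ∧ SixteenPercent Q :=
  ⟨halfOfAll h, mostWithWeightsOne h, oneOfTwo h, sixteenPercent h⟩

end Pool.Agent.Run7.h879.HA
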