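import Mathlib
import Pool.Agent.W495.FM.HomDefs

/-!
# Ranks of higher Chow groups and the multiplicity of the eigenvalue one: definitions
-/

set_option autoImplicit false

namespace Pool.Agent.Run7.h879.HA

open Module Pool.Agent.W495.TA Pool.Agent.W495.FM

variable {Ω : Type} [Field Ω] {V : Type}

/-- The multiplicity of the eigenvalue one of the Frobenius on `H_n(X, ℚ_ℓ(j))`: the dimension of
the space of the elements which are annihilated by a power of `Frobenius - 1`. -/
noncomputable def mult (T : Homology Ω V) (X : V) (n j : ℤ) : ℕ :=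
  Set.finrank Ω {e : T.E X n j | ∃ k : ℕ, (fun e => T.frob X n j e - e)^[k] e = 0}

/-- For every scheme `X` and every `j` only finitely many of the groups `H_n(X, ℚ_ℓ(j))` are not
zero. -/
def HasFiniteRange (T : Homology Ω V) : Prop :=
  ∀ (X : V) (j : ℤ), {n : ℤ | ∃ e : T.E X n j, e ≠ 0}.Finite

/-- The order of the zeta function of `X` at `s = j`, by Grothendieck's formula
`ζ_X(s) = ∏_n det(1 - F q^(-s) | H_c^n(X, ℚ_ℓ)) ^ ((-1) ^ (n + 1))`: the eigenvalue `q ^ j` of the
Frobenius on `H_c^n(X, ℚ_ℓ)` has the multiplicity of the eigenvalue one on the dual space twisted by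
`j`, which is `H_n(X, ℚ_ℓ(j))`. -/
noncomputable def zetaOrder (T : Homology Ω V) (X : V) (j : ℤ) : ℤ :=
  -∑ᶠ n : ℤ, (n.negOnePow : ℤ) * (mult T X n j : ℤ)

/-- The rank of the higher Chow group `CH_j(X, i)`, that is the dimension of
`CH_j(X, i) ⊗ ℚ = H_(i + 2 j)^M(X, ℚ(j))`. -/
noncomputable def rankCH (T : Homology Ω V) (X : V) (j i : ℤ) : ℕ :=
  finrank ℚ (T.M X (i + 2 * j) j)

/-- The assertion of the conjecture of Bloch and Soulé for `X` and cycles of dimension `j`: the
groups `CH_j(X, i)` are of finite rank, almost all of them are of rank zero, and the alternating sum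
of the ranks is minus the order of the zeta function at `s = j`. -/
def BlochSoule (T : Homology Ω V) (X : V) (j : ℤ) : Prop :=
  (∀ i : ℤ, FiniteDimensional ℚ (T.M X (i + 2 * j) j)) ∧ {i : ℤ | rankCH T X j i ≠ 0}.Finite ∧
    -zetaOrder T X j = ∑ᶠ i : ℤ, (i.negOnePow : ℤ) * (rankCH T X j i : ℤ)

end Pool.Agent.Run7.h879.HA
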