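import Mathlib
import Pool.Agent.Run7.h879.HA.RankDefs
import Pool.Agent.W495.FM.Hom

/-!
# Ranks of higher Chow groups and the multiplicity of the eigenvalue one
-/

set_option autoImplicit false

namespace Pool.Agent.Run7.h879.HA

open Module Pool.Agent.W495.TA Pool.Agent.W495.FM

section

variable {Ω : Type} [Field Ω] [CharZero Ω]

/-- A rational structure: an additive map which preserves linear independence. -/
theorem rank_of_indep {A B : Type} [AddCommGroup A] [Module ℚ A] [AddCommGroup B] [Module Ω B]
    [FiniteDimensional Ω B] (f : A → B) (hf : IsAdd f)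
    (hi : ∀ (r : ℕ) (x : Fin r → A), LinearIndependent ℚ x → LinearIndependent Ω fun k => f (x k)) :
    FiniteDimensional ℚ A ∧
      finrank Ω (Submodule.span Ω (Set.range f)) = finrank ℚ A := by
  classical
  letI : Module ℚ B := Module.compHom B (algebraMap ℚ Ω)
  have hsm : ∀ (c : ℚ) (b : B), c • b = (c : Ω) • b := fun c b => by
    change (algebraMap ℚ Ω c) • b = _
    rw [eq_ratCast]
  let F : A →ₗ[ℚ] B := (hf.map).toRatLinearMap
  have hF : ∀ a, F a = f a := fun a => rfl
  let b := Basis.ofVectorSpace ℚ A
  have hli : LinearIndependent Ω fun i => f (b i) := by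
    rw [linearIndependent_iff_finset_linearIndependent]
    intro s
    have h1 : LinearIndependent ℚ fun i : Fin s.card => b (s.equivFin.symm i : _) :=
      b.linearIndependent.comp _ (Subtype.val_injective.comp s.equivFin.symm.injective)
    have h2 := hi _ _ h1
    have h3 := h2.comp s.equivFin s.equivFin.injective
    convert h3 using 1
    funext i
    simp
  have hfin : Finite (Basis.ofVectorSpaceIndex ℚ A) := hli.finite
  have hfd : FiniteDimensional ℚ A := Module.Finite.of_basis b
  refine ⟨hfd, ?_⟩
  have := Fintype.ofFinite (Basis.ofVectorSpaceIndex ℚ A)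
  have hspan : Submodule.span Ω (Set.range f) =
      Submodule.span Ω (Set.range fun i => f (b i)) := by
    apply le_antisymm
    · rw [Submodule.span_le]
      rintro _ ⟨a, rfl⟩
      have h1 : f a = ∑ i, ((b.repr a i : ℚ) : Ω) • f (b i) := by
        rw [← hF, ← b.sum_repr a, map_sum]
        refine Finset.sum_congr rfl fun i _ => ?_
        rw [map_smul, hsm, b.sum_repr a, hF]
      rw [h1]
      exact Submodule.sum_mem _ fun i _ =>
        Submodule.smul_mem _ _ (Submodule.subset_span ⟨i, rfl⟩)
    · rw [Submodule.span_le]
      rintro _ ⟨i, rfl⟩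
      exact Submodule.subset_span ⟨b i, rfl⟩
  rw [hspan, finrank_span_eq_card hli, finrank_eq_card_basis b]

variable {V : Type}

/-- The ranks. -/
theorem tb_rank {T : Homology Ω V} (hT : IsHomology T) {X : V} (h : TB T X) (n j : ℤ) :
    FiniteDimensional ℚ (T.M X n j) ∧ finrank ℚ (T.M X n j) = mult T X n j ∧
      Set.finrank Ω (Set.range (T.reg X n j)) = mult T X n j := by
  obtain ⟨h1, h2, h3⟩ := h n j
  have _ := hT.finite X n j
  obtain ⟨h4, h5⟩ := rank_of_indep (T.reg X n j) (hT.add X n j) h2
  have h6 : {e : T.E X n j | ∃ k : ℕ, (fun e => T.frob X n j e - e)^[k] e = 0} =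
      {e | T.frob X n j e = e} := by
    ext e
    constructor
    · rintro ⟨k, hk⟩
      induction k generalizing e with
      | zero =>
        have h7 : e = 0 := hk
        rw [Set.mem_setOf_eq, h7]
        exact ((hT.lin X n j).map_apply 0).symm.trans (map_zero _)
      | succ k ih =>
        rw [Function.iterate_succ, Function.comp_apply] at hk
        exact h3 e (ih _ hk)
    · intro he
      exact ⟨1, by
        rw [Function.iterate_one]
        exact sub_eq_zero.2 he⟩
  have h7 : {e | T.frob X n j e = e} =
      (Submodule.span Ω (Set.range (T.reg X n j)) : Set (T.E X n j)) := Set.ext fun e => h1 e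
  have h8 : mult T X n j = finrank Ω (Submodule.span Ω (Set.range (T.reg X n j))) := by
    unfold mult Set.finrank
    rw [h6, h7, Submodule.span_eq]
  exact ⟨h4, by rw [h8, h5], by rw [h8]; rfl⟩

/-- The conjecture of Bloch and Soulé follows from the one of Tate and Beilinson. -/
theorem blochSoule_of_tb {T : Homology Ω V} (hT : IsHomology T) (hR : HasFiniteRange T) {X : V}
    (h : TB T X) (j : ℤ) : BlochSoule T X j := by
  have h1 := fun n => tb_rank hT h n j
  have h2 : ∀ i, rankCH T X j i = mult T X (i + 2 * j) j := fun i => (h1 _).2.1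
  refine ⟨fun i => (h1 _).1, ?_, ?_⟩
  · have h3 : Function.Injective fun i : ℤ => i + 2 * j := fun a b hab => by
      have : a + 2 * j = b + 2 * j := hab
      omega
    refine ((hR X j).preimage h3.injOn).subset ?_
    intro i hi
    by_contra hne
    have h4 : ∀ e : T.E X (i + 2 * j) j, e = 0 := by
      intro e
      by_contra he
      exact hne ⟨e, he⟩
    apply hi
    rw [h2]
    unfold mult Set.finrank
    have h5 : Submodule.span Ω {e : T.E X (i + 2 * j) j |
        ∃ k : ℕ, (fun e => T.frob X (i + 2 * j) j e - e)^[k] e = 0} = ⊥ := by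
      rw [Submodule.span_eq_bot]
      intro e _
      exact h4 e
    rw [h5, finrank_bot]
  · unfold zetaOrder
    rw [neg_neg, ← finsum_comp_equiv (Equiv.addRight (2 * j))]
    refine finsum_congr fun i => ?_
    rw [h2]
    have h3 : (Equiv.addRight (2 * j)) i = i + 2 * j := rfl
    rw [h3, Int.negOnePow_add, Int.negOnePow_two_mul, mul_one]

end

end Pool.Agent.Run7.h879.HA
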